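import Pool.Agent.Helper50.GP.St

/-!
MODULE ARI of project GP (helper50): the parameters (Dirichlet and a primitive root modulo `p ^ 2`).
-/

set_option autoImplicit false

namespace Pool.Agent.Helper78.GP

open Pool.Agent.Helper50.GP

/-- a primitive root modulo `p ^ 2` -/
theorem exists_prim (p : ℕ) (pp : p.Prime) (p3 : 3 ≤ p) :
    ∃ g : ℕ, 2 ≤ g ∧ Nat.Coprime g p ∧
      ∀ z : ℤ, ¬ (p : ℤ) ∣ z → ∃ n : ℕ, ((g ^ n : ℕ) : ZMod (p ^ 2)) = (z : ZMod (p ^ 2)) := by
  have : Fact p.Prime := ⟨pp⟩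
  have hp2 : 1 < p ^ 2 := Nat.one_lt_pow (by norm_num) (by omega)
  have : NeZero (p ^ 2) := ⟨by omega⟩
  have : Fact (1 < p ^ 2) := ⟨hp2⟩
  have hcyc : IsCyclic (ZMod (p ^ 2))ˣ := ZMod.isCyclic_units_of_prime_pow p pp (by omega) 2
  obtain ⟨γ, hγ⟩ := hcyc.exists_generator
  have hval : ((((γ : ZMod (p ^ 2)).val : ℕ)) : ZMod (p ^ 2)) = (γ : ZMod (p ^ 2)) :=
    ZMod.natCast_zmod_val _
  refine ⟨(γ : ZMod (p ^ 2)).val, ?_, ?_, ?_⟩
  · by_contra hlt
    have h01 : (γ : ZMod (p ^ 2)).val = 0 ∨ (γ : ZMod (p ^ 2)).val = 1 := by omega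
    rcases h01 with h0 | h1
    · have : (γ : ZMod (p ^ 2)) = 0 := by
        rw [← hval, h0]; simp
      exact γ.ne_zero this
    · have h1' : γ = 1 := by
        apply Units.ext
        rw [← hval, h1]; simp
      have hall : ∀ x : (ZMod (p ^ 2))ˣ, x = 1 := by
        intro x
        have hx := hγ x
        rw [h1', Subgroup.zpowers_one_eq_bot, Subgroup.mem_bot] at hx
        exact hx
      have hm1 := hall (-1)
      have hm2 : (-1 : ZMod (p ^ 2)) = 1 := by
        have := congrArg (fun u : (ZMod (p ^ 2))ˣ => (u : ZMod (p ^ 2))) hm1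
        simpa using this
      have hm3 : ((2 : ℕ) : ZMod (p ^ 2)) = 0 := by
        have : (1 : ZMod (p ^ 2)) + 1 = 0 := by
          nth_rewrite 2 [← hm2]
          ring
        rw [← this]; norm_num
      rw [ZMod.natCast_eq_zero_iff] at hm3
      have := Nat.le_of_dvd (by norm_num) hm3
      nlinarith
  · have h := ZMod.val_coe_unit_coprime γ
    exact Nat.Coprime.coprime_mul_right_right (by rw [← pow_two]; exact h)
  · intro z hz
    have hcop : IsCoprime z ((p ^ 2 : ℕ) : ℤ) := by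
      rw [Nat.cast_pow]
      apply IsCoprime.pow_right
      rw [Int.isCoprime_iff_gcd_eq_one, Int.gcd_comm]
      have h1 := (Nat.coprime_primes pp pp)
      rw [← Int.isCoprime_iff_gcd_eq_one]
      exact (Prime.coprime_iff_not_dvd (Nat.prime_iff_prime_int.mp pp)).mpr hz
    have hunit : IsUnit (z : ZMod (p ^ 2)) := by
      obtain ⟨a, b, hab⟩ := hcop
      have h2 : (a : ZMod (p ^ 2)) * (z : ZMod (p ^ 2)) = 1 := by
        have := congrArg (fun t : ℤ => (t : ZMod (p ^ 2))) hab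
        simp only [Int.cast_add, Int.cast_mul, Int.cast_natCast, ZMod.natCast_self, mul_zero,
          add_zero, Int.cast_one] at this
        exact this
      exact IsUnit.of_mul_eq_one_right _ h2
    obtain ⟨u, hu⟩ := hunit
    have hmem : u ∈ Submonoid.powers γ := by
      rw [mem_powers_iff_mem_zpowers]
      exact hγ u
    obtain ⟨n, hn⟩ := hmem
    refine ⟨n, ?_⟩
    rw [Nat.cast_pow, hval, ← hu, ← hn]
    simp

theorem hARI : StARI := by
  intro m q L hm hq hmq
  have hm0 : 1 ≤ m := hm.pos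
  have hq0 : 1 ≤ q := hq.pos
  have hodd : Odd (m * q) := hm.mul hq
  have hmq0 : 1 ≤ m * q := hodd.pos
  have hc2 : Nat.Coprime 2 (m * q) := Nat.coprime_two_left.mpr hodd
  obtain ⟨p, hpL, pp, hpm⟩ := Nat.forall_exists_prime_gt_and_modEq (q := m * q) (a := 2) (L + 3)
    (by omega) hc2
  have p3 : 3 ≤ p := by omega
  obtain ⟨g, g2, gp, prim⟩ := exists_prim p pp p3
  obtain ⟨e1, e1m, e1q⟩ := Nat.chineseRemainder hmq 1 0
  obtain ⟨e2, e2m, e2q⟩ := Nat.chineseRemainder hmq 0 1
  have hcp : Nat.Coprime p (m * q) := by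
    have h := hpm.gcd_eq
    rw [Nat.Coprime, h]
    exact hc2
  have hcp1 : Nat.Coprime (p - 1) (m * q) := by
    have h1 : p - 1 ≡ 1 [MOD m * q] := by
      have h2 : (p - 1) + 1 ≡ 1 + 1 [MOD m * q] := by
        rw [Nat.sub_add_cancel (by omega : 1 ≤ p)]
        exact hpm
      exact Nat.ModEq.add_right_cancel' 1 h2
    have h := h1.gcd_eq
    rw [Nat.Coprime, h]
    exact Nat.coprime_one_left _
  refine ⟨p, g, e1, e2, by omega, ?_⟩
  exact
    { pp := pp
      p3 := p3
      g2 := g2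
      gp := gp
      prim := prim
      m1 := hm0
      q1 := hq0
      mq := hmq
      cop := Nat.Coprime.mul_left hcp hcp1
      e1m := e1m
      e1q := e1q
      e2m := e2m
      e2q := e2q
      pq := hpm.of_mul_left m }

end Pool.Agent.Helper78.GP
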